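import Mathlib

set_option autoImplicit false

/-!
# Diagonal groups, Cartesian lattices, and powers of indecomposable groups
-/

namespace Pool.Agent.Work.MP_f6f6d4_al

universe u v

/-- A nontrivial group whose only characteristic subgroups are `1` and the group itself. -/
def IsCharSimple (T : Type u) [Group T] : Prop :=
  Nontrivial T ∧ ∀ H : Subgroup T, H.Characteristic → H = ⊥ ∨ H = ⊤

/-- An FCR-group: isomorphic to `S^k` for a non-abelian simple group `S` and some `k ≥ 1`. -/
def IsFCR (T : Type u) [Group T] : Prop :=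
  ∃ (S : Type u) (_ : Group S) (k : ℕ), 1 ≤ k ∧ IsSimpleGroup S ∧ (∃ x y : S, x * y ≠ y * x) ∧
    Nonempty (T ≃* (Fin k → S))

/-- The diagonal subgroup `δ(T) = {(t, …, t)}` of `T^(m+1)`. -/
def delta (T : Type u) [Group T] (m : ℕ) : Subgroup (Fin (m + 1) → T) where
  carrier := {x | ∃ t : T, ∀ i, x i = t}
  one_mem' := ⟨1, fun _ => rfl⟩
  mul_mem' := by
    rintro x y ⟨t, ht⟩ ⟨s, hs⟩
    exact ⟨t * s, fun i => by rw [Pi.mul_apply, ht, hs]⟩
  inv_mem' := by
    rintro x ⟨t, ht⟩
    exact ⟨t⁻¹, fun i => by rw [Pi.inv_apply, ht]⟩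

/-- The set `Ω` of right cosets `δ(T) x`, `x ∈ T^(m+1)`. -/
abbrev Omega (T : Type u) [Group T] (m : ℕ) : Type u :=
  Quotient (QuotientGroup.rightRel (delta T m))

section Omega

variable {T : Type u} [Group T] {m : ℕ}

/-- the right coset `δ(T) x` -/
def cls (x : Fin (m + 1) → T) : Omega T m := Quotient.mk _ x

theorem cls_eq_iff (x y : Fin (m + 1) → T) : cls x = cls y ↔ ∃ t : T, ∀ i, y i = t * x i := by
  unfold cls
  rw [Quotient.eq, QuotientGroup.rightRel_apply]
  constructor
  · rintro ⟨t, ht⟩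
    refine ⟨t, fun i => ?_⟩
    have := ht i
    rw [Pi.mul_apply, Pi.inv_apply, mul_inv_eq_iff_eq_mul] at this
    exact this
  · rintro ⟨t, ht⟩
    refine ⟨t, fun i => ?_⟩
    rw [Pi.mul_apply, Pi.inv_apply, mul_inv_eq_iff_eq_mul]
    exact ht i

theorem cls_surj (ω : Omega T m) : ∃ x, cls x = ω := Quotient.exists_rep ω

/-- A map of `T^(m+1)` compatible with right cosets. -/
def lift (f : (Fin (m + 1) → T) → (Fin (m + 1) → T))
    (hf : ∀ x y, cls x = cls y → cls (f x) = cls (f y)) : Omega T m → Omega T m :=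
  Quotient.lift (fun x => cls (f x)) (fun x y h => hf x y (Quotient.sound h))

/-- Right multiplication by `y ∈ T^(m+1)`, as a permutation of `Ω`. -/
def rightMul (y : Fin (m + 1) → T) : Equiv.Perm (Omega T m) where
  toFun := lift (fun x => x * y) (by
    intro x x' h
    obtain ⟨t, ht⟩ := (cls_eq_iff _ _).1 h
    exact (cls_eq_iff _ _).2 ⟨t, fun i => by rw [Pi.mul_apply, Pi.mul_apply, ht, mul_assoc]⟩)
  invFun := lift (fun x => x * y⁻¹) (by
    intro x x' h
    obtain ⟨t, ht⟩ := (cls_eq_iff _ _).1 h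
    exact (cls_eq_iff _ _).2 ⟨t, fun i => by rw [Pi.mul_apply, Pi.mul_apply, ht, mul_assoc]⟩)
  left_inv := by
    intro ω
    obtain ⟨x, rfl⟩ := cls_surj ω
    change cls (x * y * y⁻¹) = cls x
    rw [mul_inv_cancel_right]
  right_inv := by
    intro ω
    obtain ⟨x, rfl⟩ := cls_surj ω
    change cls (x * y⁻¹ * y) = cls x
    rw [inv_mul_cancel_right]

/-- The permutation of `Ω` induced by an automorphism of `T` acting on all coordinates. -/
def autPerm (α : T ≃* T) : Equiv.Perm (Omega T m) where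
  toFun := lift (fun x i => α (x i)) (by
    intro x x' h
    obtain ⟨t, ht⟩ := (cls_eq_iff _ _).1 h
    exact (cls_eq_iff _ _).2 ⟨α t, fun i => by rw [ht, map_mul]⟩)
  invFun := lift (fun x i => α.symm (x i)) (by
    intro x x' h
    obtain ⟨t, ht⟩ := (cls_eq_iff _ _).1 h
    exact (cls_eq_iff _ _).2 ⟨α.symm t, fun i => by rw [ht, map_mul]⟩)
  left_inv := by
    intro ω
    obtain ⟨x, rfl⟩ := cls_surj ω
    change cls (fun i => α.symm (α (x i))) = cls x
    simp
  right_inv := by
    intro ω
    obtain ⟨x, rfl⟩ := cls_surj ω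
    change cls (fun i => α (α.symm (x i))) = cls x
    simp

/-- The permutation of `Ω` induced by a permutation of the `m + 1` coordinates. -/
def coordPerm (s : Equiv.Perm (Fin (m + 1))) : Equiv.Perm (Omega T m) where
  toFun := lift (fun x i => x (s i)) (by
    intro x x' h
    obtain ⟨t, ht⟩ := (cls_eq_iff _ _).1 h
    exact (cls_eq_iff _ _).2 ⟨t, fun i => ht _⟩)
  invFun := lift (fun x i => x (s.symm i)) (by
    intro x x' h
    obtain ⟨t, ht⟩ := (cls_eq_iff _ _).1 h
    exact (cls_eq_iff _ _).2 ⟨t, fun i => ht _⟩)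
  left_inv := by
    intro ω
    obtain ⟨x, rfl⟩ := cls_surj ω
    change cls (fun i => x (s (s.symm i))) = cls x
    simp
  right_inv := by
    intro ω
    obtain ⟨x, rfl⟩ := cls_surj ω
    change cls (fun i => x (s.symm (s i))) = cls x
    simp

end Omega

/-- The diagonal group `D(T, m)`, a group of permutations of `Ω`. -/
def diagonalGroup (T : Type u) [Group T] (m : ℕ) : Subgroup (Equiv.Perm (Omega T m)) :=
  Subgroup.closure (Set.range (rightMul : (Fin (m + 1) → T) → Equiv.Perm (Omega T m)) ∪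
    Set.range (autPerm : (T ≃* T) → Equiv.Perm (Omega T m)) ∪
    Set.range (coordPerm : Equiv.Perm (Fin (m + 1)) → Equiv.Perm (Omega T m)))

/-- The partition `Q_J` of `Δ^n`: two tuples are in the same part iff they agree in every
coordinate outside `J`. -/
def QJ (Δ : Type v) (n : ℕ) (J : Set (Fin n)) : Setoid (Fin n → Δ) where
  r x y := ∀ i, i ∉ J → x i = y i
  iseqv := ⟨fun _ _ _ => rfl, fun h i hi => (h i hi).symm, fun h h' i hi => (h i hi).trans (h' i hi)⟩

/-- The image of a partition (equivalence relation) under a permutation. -/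
def mapPartition {Ω : Type u} (g : Equiv.Perm Ω) (r : Setoid Ω) : Setoid Ω :=
  Setoid.comap (g⁻¹ : Equiv.Perm Ω) r

/-- `G` preserves a Cartesian lattice: for some `Δ` with `|Δ| ≥ 2`, some `n ≥ 2` and some bijection
`Ω → Δ^n`, every element of `G` maps the set of the transported partitions `Q_J` onto itself. -/
def PreservesCartesianLattice {Ω : Type u} (G : Subgroup (Equiv.Perm Ω)) : Prop :=
  ∃ (Δ : Type u) (n : ℕ) (f : Ω ≃ (Fin n → Δ)), Nontrivial Δ ∧ 2 ≤ n ∧
    ∀ g ∈ G, mapPartition g '' (Set.range fun J => Setoid.comap f (QJ Δ n J)) =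
      Set.range fun J => Setoid.comap f (QJ Δ n J)

section Powers

variable {A : Type u} [Group A] {n : ℕ}

/-- Any two nontrivial normal subgroups of `A` meet nontrivially. -/
def NormalMeet (A : Type u) [Group A] : Prop :=
  ∀ M N : Subgroup A, M.Normal → N.Normal → M ≠ ⊥ → N ≠ ⊥ → M ⊓ N ≠ ⊥

/-- The `j`-th coordinate of `φ` on the `i`-th factor. -/
def comp (φ : (Fin n → A) ≃* (Fin n → A)) (i j : Fin n) : A →* A :=
  (Pi.evalMonoidHom (fun _ => A) j).comp
    (φ.toMonoidHom.comp (MonoidHom.mulSingle (fun _ => A) i))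

theorem comp_apply (φ : (Fin n → A) ≃* (Fin n → A)) (i j : Fin n) (a : A) :
    comp φ i j a = φ (Pi.mulSingle i a) j := rfl

theorem comp_commute (φ : (Fin n → A) ≃* (Fin n → A)) {i i' : Fin n} (h : i ≠ i') (j : Fin n)
    (a b : A) : comp φ i j a * comp φ i' j b = comp φ i' j b * comp φ i j a := by
  have h1 : Pi.mulSingle i a * Pi.mulSingle i' b =
      (Pi.mulSingle i' b * Pi.mulSingle i a : Fin n → A) :=
    (Pi.mulSingle_commute (f := fun _ : Fin n => A) h a b).eq
  rw [comp_apply, comp_apply, ← Pi.mul_apply, ← map_mul, ← Pi.mul_apply, ← map_mul, h1]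

theorem comp_range_normal (φ : (Fin n → A) ≃* (Fin n → A)) (i j : Fin n) :
    (comp φ i j).range.Normal where
  conj_mem := by
    rintro _ ⟨a, rfl⟩ g
    -- `g = φ(x)_j`
    obtain ⟨x, hx⟩ := φ.surjective (Pi.mulSingle j g)
    refine ⟨x i * a * (x i)⁻¹, ?_⟩
    rw [comp_apply, comp_apply]
    have h1 : Pi.mulSingle i (x i * a * (x i)⁻¹) = x * Pi.mulSingle i a * x⁻¹ := by
      funext l
      by_cases h : l = i
      · subst h; simp
      · simp [Pi.mulSingle_eq_of_ne h]
    rw [h1, map_mul, map_mul, map_inv, hx]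
    simp

/-- If the `j`-th coordinate of `φ` is nontrivial on two factors we get a contradiction. -/
theorem comp_unique (hA : Subgroup.center A = ⊥) (hM : NormalMeet A)
    (φ : (Fin n → A) ≃* (Fin n → A)) {i i' j : Fin n} (h : i ≠ i')
    (h1 : (comp φ i j).range ≠ ⊥) (h2 : (comp φ i' j).range ≠ ⊥) : False := by
  have h3 := hM _ _ (comp_range_normal φ i j) (comp_range_normal φ i' j) h1 h2
  apply h3
  rw [eq_bot_iff, ← hA]
  rintro k ⟨⟨a, ha⟩, ⟨b, hb⟩⟩
  rw [Subgroup.mem_center_iff]
  intro g
  obtain ⟨x, hx⟩ := φ.surjective (Pi.mulSingle j g)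
  -- the subgroup of `x` with `φ(x)_j` commuting with `k`
  let H : Subgroup (Fin n → A) := (Subgroup.centralizer {k}).comap
    ((Pi.evalMonoidHom (fun _ => A) j).comp φ.toMonoidHom)
  have hH : ∀ x, x ∈ H ↔ φ x j * k = k * φ x j := by
    intro x
    rw [Subgroup.mem_comap, Subgroup.mem_centralizer_iff]
    simp only [Set.mem_singleton_iff, forall_eq]
    exact eq_comm
  have hxH : x ∈ H := by
    apply Subgroup.pi_mem_of_mulSingle_mem
    intro l
    rw [hH, ← comp_apply]
    by_cases hl : l = i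
    · rw [← hb]
      exact comp_commute φ (by rw [hl]; exact h) j _ _
    · rw [← ha]
      exact comp_commute φ hl j _ _
  have := (hH x).1 hxH
  rw [hx] at this
  simpa using this

theorem comp_exists [Nontrivial A] (φ : (Fin n → A) ≃* (Fin n → A)) (j : Fin n) :
    ∃ i, (comp φ i j).range ≠ ⊥ := by
  by_contra hcon
  push Not at hcon
  obtain ⟨a, ha⟩ := exists_ne (1 : A)
  obtain ⟨x, hx⟩ := φ.surjective (Pi.mulSingle j a)
  apply ha
  have h1 : x ∈ ((Pi.evalMonoidHom (fun _ => A) j).comp φ.toMonoidHom).ker := by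
    apply Subgroup.pi_mem_of_mulSingle_mem
    intro l
    rw [MonoidHom.mem_ker]
    have h2 : comp φ l j (x l) ∈ (comp φ l j).range := ⟨_, rfl⟩
    rw [hcon l, Subgroup.mem_bot] at h2
    exact h2
  rw [MonoidHom.mem_ker] at h1
  change φ x j = 1 at h1
  rw [hx] at h1
  simpa using h1

/-- Automorphisms of `A^n` permute the factors. -/
theorem exists_perm [Nontrivial A] (hA : Subgroup.center A = ⊥) (hM : NormalMeet A)
    (φ : (Fin n → A) ≃* (Fin n → A)) : ∃ (π : Equiv.Perm (Fin n)) (ψ : Fin n → (A →* A)),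
      (∀ x j, φ x j = ψ j (x (π j))) ∧ ∀ j, Function.Injective (ψ j) := by
  classical
  choose p hp using comp_exists φ
  have huniq : ∀ i j, i ≠ p j → (comp φ i j).range = ⊥ := by
    intro i j hij
    by_contra hne
    exact comp_unique hA hM φ hij hne (hp j)
  have hform : ∀ x j, φ x j = comp φ (p j) j (x (p j)) := by
    intro x j
    have h1 : x * (Pi.mulSingle (p j) (x (p j)))⁻¹ ∈
        ((Pi.evalMonoidHom (fun _ => A) j).comp φ.toMonoidHom).ker := by
      apply Subgroup.pi_mem_of_mulSingle_mem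
      intro l
      rw [MonoidHom.mem_ker]
      by_cases hl : l = p j
      · subst hl
        simp
      · have h2 : comp φ l j ((x * (Pi.mulSingle (p j) (x (p j)) : Fin n → A)⁻¹) l) ∈
            (comp φ l j).range := ⟨_, rfl⟩
        rw [huniq l j hl, Subgroup.mem_bot] at h2
        exact h2
    rw [MonoidHom.mem_ker] at h1
    change φ (x * (Pi.mulSingle (p j) (x (p j)))⁻¹) j = 1 at h1
    rw [map_mul, map_inv, Pi.mul_apply, Pi.inv_apply, mul_inv_eq_one] at h1
    exact h1
  have hsurj : Function.Surjective p := by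
    intro i
    by_contra hcon
    push Not at hcon
    obtain ⟨a, ha⟩ := exists_ne (1 : A)
    have h1 : φ (Pi.mulSingle i a) = 1 := by
      funext j
      rw [hform, Pi.mulSingle_eq_of_ne (hcon j), map_one]
      rfl
    have h2 : Pi.mulSingle i a = (1 : Fin n → A) := by
      apply φ.injective; rw [h1, map_one]
    apply ha
    have := congrFun h2 i
    simpa using this
  have hbij : Function.Bijective p := Finite.injective_iff_bijective.1
    (Finite.injective_iff_surjective.2 hsurj)
  refine ⟨Equiv.ofBijective p hbij, fun j => comp φ (p j) j, fun x j => hform x j, ?_⟩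
  intro j
  rw [injective_iff_map_eq_one]
  intro a ha
  have h1 : φ (Pi.mulSingle (p j) a) = 1 := by
    funext l
    rw [hform]
    by_cases hl : l = j
    · subst hl
      rw [Pi.mulSingle_eq_same, ha]; rfl
    · rw [Pi.mulSingle_eq_of_ne (fun h => hl (hbij.1 h)), map_one]; rfl
  have h2 : Pi.mulSingle (p j) a = (1 : Fin n → A) := by
    apply φ.injective; rw [h1, map_one]
  have := congrFun h2 (p j)
  simpa using this

variable {m : ℕ}

/-- the bijection `Ω(A^n, m) → Ω(A, m)^n` -/
noncomputable def omegaEquiv (A : Type u) [Group A] (n m : ℕ) :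
    Omega (Fin n → A) m ≃ (Fin n → Omega A m) :=
  Equiv.ofBijective
    (Quotient.lift (fun x i => cls (fun j => x j i)) (by
      intro x y h
      have h' : cls x = cls y := Quotient.sound h
      obtain ⟨t, ht⟩ := (cls_eq_iff _ _).1 h'
      funext i
      exact (cls_eq_iff _ _).2 ⟨t i, fun j => by rw [ht]; rfl⟩)) (by
    constructor
    · intro ω ω' h
      obtain ⟨x, rfl⟩ := cls_surj ω
      obtain ⟨y, rfl⟩ := cls_surj ω'
      have h1 : ∀ i, cls (fun j => x j i) = cls (fun j => y j i) := fun i => congrFun h i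
      choose t ht using fun i => (cls_eq_iff _ _).1 (h1 i)
      exact (cls_eq_iff _ _).2 ⟨t, fun j => funext fun i => ht i j⟩
    · intro z
      choose x hx using fun i => cls_surj (z i)
      exact ⟨cls (fun j i => x i j), funext fun i => hx i⟩)

theorem omegaEquiv_cls (x : Fin (m + 1) → Fin n → A) (i : Fin n) :
    omegaEquiv A n m (cls x) i = cls (fun j => x j i) := rfl

/-- Permutations of `Ω` permuting the coordinates of `Ω(A, m)^n`. -/
def Good (A : Type u) [Group A] (n m : ℕ) (g : Equiv.Perm (Omega (Fin n → A) m)) : Prop :=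
  ∃ π : Equiv.Perm (Fin n), ∀ ω ω' j, omegaEquiv A n m (g ω) j = omegaEquiv A n m (g ω') j ↔
    omegaEquiv A n m ω (π j) = omegaEquiv A n m ω' (π j)

theorem good_of_mem [Nontrivial A] (hA : Subgroup.center A = ⊥) (hM : NormalMeet A)
    {g : Equiv.Perm (Omega (Fin n → A) m)} (hg : g ∈ diagonalGroup (Fin n → A) m) :
    Good A n m g := by
  induction hg using Subgroup.closure_induction with
  | mem g hg =>
    rcases hg with (⟨y, rfl⟩ | ⟨α, rfl⟩) | ⟨s, rfl⟩
    · refine ⟨1, fun ω ω' j => ?_⟩
      obtain ⟨x, rfl⟩ := cls_surj ω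
      obtain ⟨x', rfl⟩ := cls_surj ω'
      change cls (fun l => x l j * y l j) = cls (fun l => x' l j * y l j) ↔
        cls (fun l => x l j) = cls (fun l => x' l j)
      rw [cls_eq_iff, cls_eq_iff]
      constructor
      · rintro ⟨t, ht⟩
        refine ⟨t, fun i => ?_⟩
        have := ht i
        rw [← mul_assoc] at this
        exact mul_right_cancel this
      · rintro ⟨t, ht⟩
        exact ⟨t, fun i => by rw [ht, mul_assoc]⟩
    · obtain ⟨π, ψ, h1, h2⟩ := exists_perm hA hM α
      refine ⟨π, fun ω ω' j => ?_⟩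
      obtain ⟨x, rfl⟩ := cls_surj ω
      obtain ⟨x', rfl⟩ := cls_surj ω'
      change cls (fun l => α (x l) j) = cls (fun l => α (x' l) j) ↔
        cls (fun l => x l (π j)) = cls (fun l => x' l (π j))
      rw [cls_eq_iff, cls_eq_iff]
      simp only [h1]
      constructor
      · rintro ⟨t, ht⟩
        -- `t` is in the image of `ψ j`
        refine ⟨x' 0 (π j) * (x 0 (π j))⁻¹, fun i => ?_⟩
        apply h2 j
        rw [map_mul, map_mul, map_inv, ht 0, ht i]
        group
      · rintro ⟨t, ht⟩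
        exact ⟨ψ j t, fun i => by rw [ht, map_mul]⟩
    · refine ⟨1, fun ω ω' j => ?_⟩
      obtain ⟨x, rfl⟩ := cls_surj ω
      obtain ⟨x', rfl⟩ := cls_surj ω'
      change cls (fun l => x (s l) j) = cls (fun l => x' (s l) j) ↔
        cls (fun l => x l j) = cls (fun l => x' l j)
      rw [cls_eq_iff, cls_eq_iff]
      constructor
      · rintro ⟨t, ht⟩
        refine ⟨t, fun i => ?_⟩
        have := ht (s.symm i)
        simpa using this
      · rintro ⟨t, ht⟩
        exact ⟨t, fun i => ht _⟩
  | one => exact ⟨1, fun ω ω' j => Iff.rfl⟩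
  | mul g h _ _ hg hh =>
    obtain ⟨π, hπ⟩ := hg
    obtain ⟨π', hπ'⟩ := hh
    refine ⟨π' * π, fun ω ω' j => ?_⟩
    rw [Equiv.Perm.mul_apply, Equiv.Perm.mul_apply, hπ, hπ']
    rfl
  | inv g _ hg =>
    obtain ⟨π, hπ⟩ := hg
    refine ⟨π⁻¹, fun ω ω' j => ?_⟩
    have := hπ (g⁻¹ ω) (g⁻¹ ω') (π⁻¹ j)
    have e1 : ∀ ω, g (g⁻¹ ω) = ω := fun ω => g.apply_symm_apply ω
    have e2 : π (π⁻¹ j) = j := π.apply_symm_apply j
    rw [e1, e1, e2] at this
    exact this.symm

/-- **The diagonal group of a power preserves a Cartesian lattice.** -/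
theorem preserves [Nontrivial A] (hA : Subgroup.center A = ⊥) (hM : NormalMeet A)
    (hn : 2 ≤ n) (hm : 1 ≤ m) :
    PreservesCartesianLattice (diagonalGroup (Fin n → A) m) := by
  refine ⟨Omega A m, n, omegaEquiv A n m, ?_, hn, ?_⟩
  · -- nontriviality
    obtain ⟨a, ha⟩ := exists_ne (1 : A)
    refine ⟨cls 1, cls (Pi.mulSingle 0 a), ?_⟩
    intro h
    obtain ⟨t, ht⟩ := (cls_eq_iff _ _).1 h
    have h0 := ht 0
    have h1 := ht (Fin.last m)
    have hne : Fin.last m ≠ 0 := by
      intro h
      have := congrArg Fin.val h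
      simp at this
      omega
    rw [Pi.mulSingle_eq_same, Pi.one_apply, mul_one] at h0
    rw [Pi.mulSingle_eq_of_ne hne, Pi.one_apply, mul_one] at h1
    exact ha (h0.trans h1.symm)
  · have key : ∀ g ∈ diagonalGroup (Fin n → A) m,
        mapPartition g '' (Set.range fun J => Setoid.comap (omegaEquiv A n m) (QJ _ n J)) ⊆
          Set.range fun J => Setoid.comap (omegaEquiv A n m) (QJ _ n J) := by
      intro g hg
      obtain ⟨π, hπ⟩ := good_of_mem hA hM ((diagonalGroup (Fin n → A) m).inv_mem hg)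
      rintro _ ⟨_, ⟨J, rfl⟩, rfl⟩
      refine ⟨π '' J, ?_⟩
      apply Setoid.ext
      intro ω ω'
      change (∀ i, i ∉ π '' J → omegaEquiv A n m ω i = omegaEquiv A n m ω' i) ↔
        ∀ i, i ∉ J → omegaEquiv A n m (g⁻¹ ω) i = omegaEquiv A n m (g⁻¹ ω') i
      constructor
      · intro h i hi
        rw [hπ]
        apply h
        rintro ⟨i', hi', he⟩
        exact hi (π.injective he ▸ hi')
      · intro h i hi
        have hi' : π.symm i ∉ J := fun h' => hi ⟨_, h', by simp⟩
        have := (hπ ω ω' (π.symm i)).1 (h _ hi')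
        simpa using this
    intro g hg
    apply Set.Subset.antisymm (key g hg)
    rintro r hr
    have h1 := key g⁻¹ ((diagonalGroup (Fin n → A) m).inv_mem hg) ⟨r, hr, rfl⟩
    refine ⟨_, h1, ?_⟩
    apply Setoid.ext
    intro ω ω'
    change r ((g⁻¹)⁻¹ (g⁻¹ ω)) ((g⁻¹)⁻¹ (g⁻¹ ω')) ↔ r ω ω'
    simp

/-- Finite powers of centreless characteristically simple groups are characteristically simple. -/
theorem charSimple_pow (hA : Subgroup.center A = ⊥) (hc : IsCharSimple A) (hn : 1 ≤ n) :
    IsCharSimple (Fin n → A) := by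
  classical
  obtain ⟨hnt, hchar⟩ := hc
  have : Nonempty (Fin n) := ⟨⟨0, by omega⟩⟩
  refine ⟨inferInstance, fun H hH => ?_⟩
  by_cases hbot : H = ⊥
  · exact Or.inl hbot
  right
  obtain ⟨⟨x, hxH⟩, hx1⟩ := Subgroup.ne_bot_iff_exists_ne_one.1 hbot
  have hx1' : x ≠ 1 := fun h => hx1 (Subtype.ext h)
  obtain ⟨i, hi⟩ : ∃ i, x i ≠ 1 := by
    by_contra hcon
    push Not at hcon
    exact hx1' (funext hcon)
  -- the trace of `H` on the `i`-th factor
  let K : Fin n → Subgroup A := fun l => H.comap (MonoidHom.mulSingle (fun _ => A) l)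
  have hK : ∀ l a, a ∈ K l ↔ Pi.mulSingle l a ∈ H := fun l a => Iff.rfl
  have hKi : K i ≠ ⊥ := by
    -- find `a` not commuting with `x i`
    have h1 : x i ∉ Subgroup.center A := by rw [hA, Subgroup.mem_bot]; exact hi
    rw [Subgroup.mem_center_iff] at h1
    push Not at h1
    obtain ⟨a, ha⟩ := h1
    intro hbot'
    have h2 : Pi.mulSingle i (a * x i * a⁻¹ * (x i)⁻¹) ∈ H := by
      have h3 : Pi.mulSingle i (a * x i * a⁻¹ * (x i)⁻¹) =
          (Pi.mulSingle i a * x * (Pi.mulSingle i a)⁻¹) * x⁻¹ := by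
        funext l
        by_cases h : l = i
        · subst h; simp
        · simp [Pi.mulSingle_eq_of_ne h]
      rw [h3]
      have hnorm : H.Normal := inferInstance
      exact H.mul_mem (hnorm.conj_mem x hxH _) (H.inv_mem hxH)
    have h4 : a * x i * a⁻¹ * (x i)⁻¹ ∈ K i := h2
    rw [hbot', Subgroup.mem_bot, mul_inv_eq_one, mul_inv_eq_iff_eq_mul] at h4
    exact ha h4
  have hKchar : (K i).Characteristic := by
    rw [Subgroup.characteristic_iff_le_comap]
    intro ψ a ha
    rw [Subgroup.mem_comap]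
    have h1 := (Subgroup.characteristic_iff_le_comap.1 hH)
      (MulEquiv.piCongrRight (fun _ : Fin n => ψ)) ((hK i a).1 ha)
    rw [Subgroup.mem_comap] at h1
    refine (hK i _).2 ?_
    convert h1 using 1
    funext l
    by_cases h : l = i
    · subst h; simp
    · simp [Pi.mulSingle_eq_of_ne h]
  have hKtop : K i = ⊤ := (hchar _ hKchar).resolve_left hKi
  have hKl : ∀ l, K l = ⊤ := by
    intro l
    rw [eq_top_iff]
    intro a _
    have h1 : a ∈ K i := by rw [hKtop]; trivial
    have h2 := (Subgroup.characteristic_iff_le_comap.1 hH)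
      (MulEquiv.arrowCongr (Equiv.swap i l) (MulEquiv.refl A)) ((hK i a).1 h1)
    rw [Subgroup.mem_comap] at h2
    refine (hK l _).2 ?_
    convert h2 using 1
    funext k
    change _ = (Pi.mulSingle i a : Fin n → A) ((Equiv.swap i l) k)
    by_cases h : k = l
    · subst h; simp
    · rw [Pi.mulSingle_eq_of_ne h, Pi.mulSingle_eq_of_ne]
      intro h'
      apply h
      have := congrArg (Equiv.swap i l) h'
      simpa using this
  rw [eq_top_iff]
  intro y _
  apply Subgroup.pi_mem_of_mulSingle_mem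
  intro l
  have : y l ∈ K l := by rw [hKl]; trivial
  exact this

/-- `S^k` has only finitely many normal subgroups if `S` is non-abelian simple. -/
theorem finite_normal {S : Type u} [Group S] (hS : IsSimpleGroup S)
    (hab : ∃ x y : S, x * y ≠ y * x) (k : ℕ) :
    Finite {N : Subgroup (Fin k → S) // N.Normal} := by
  classical
  have hcen : Subgroup.center S = ⊥ := by
    rcases hS.eq_bot_or_eq_top_of_normal (Subgroup.center S) inferInstance with h | h
    · exact h
    · exfalso
      obtain ⟨x, y, hxy⟩ := hab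
      apply hxy
      have : y ∈ Subgroup.center S := by rw [h]; trivial
      exact Subgroup.mem_center_iff.1 this x
  let supp : {N : Subgroup (Fin k → S) // N.Normal} → Set (Fin k) :=
    fun N => {i | ∃ x ∈ N.1, x i ≠ 1}
  have key : ∀ N : {N : Subgroup (Fin k → S) // N.Normal}, ∀ x, x ∈ N.1 ↔
      ∀ i, i ∉ supp N → x i = 1 := by
    intro N x
    constructor
    · intro hx i hi
      by_contra hne
      exact hi ⟨x, hx, hne⟩
    · intro hx
      apply Subgroup.pi_mem_of_mulSingle_mem
      intro i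
      by_cases hi : i ∈ supp N
      · obtain ⟨y, hyN, hy⟩ := hi
        let K : Subgroup S := N.1.comap (MonoidHom.mulSingle (fun _ => S) i)
        have hKmem : ∀ a, a ∈ K ↔ Pi.mulSingle i a ∈ N.1 := fun a => Iff.rfl
        have hnorm := N.2
        have hKn : K.Normal := Subgroup.Normal.comap hnorm _
        have hK1 : K ≠ ⊥ := by
          have h1 : y i ∉ Subgroup.center S := by rw [hcen, Subgroup.mem_bot]; exact hy
          rw [Subgroup.mem_center_iff] at h1
          push Not at h1
          obtain ⟨a, ha⟩ := h1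
          intro hbot'
          have h2 : Pi.mulSingle i (a * y i * a⁻¹ * (y i)⁻¹) ∈ N.1 := by
            have h3 : Pi.mulSingle i (a * y i * a⁻¹ * (y i)⁻¹) =
                (Pi.mulSingle i a * y * (Pi.mulSingle i a)⁻¹) * y⁻¹ := by
              funext l
              by_cases h : l = i
              · subst h; simp
              · simp [Pi.mulSingle_eq_of_ne h]
            rw [h3]
            exact N.1.mul_mem (hnorm.conj_mem y hyN _) (N.1.inv_mem hyN)
          have h4 : a * y i * a⁻¹ * (y i)⁻¹ ∈ K := h2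
          rw [hbot', Subgroup.mem_bot, mul_inv_eq_one, mul_inv_eq_iff_eq_mul] at h4
          exact ha h4
        have hKt : K = ⊤ := (hS.eq_bot_or_eq_top_of_normal K hKn).resolve_left hK1
        have : x i ∈ K := by rw [hKt]; trivial
        exact this
      · rw [hx i hi, Pi.mulSingle_one]
        exact N.1.one_mem
  apply Finite.of_injective supp
  intro N M h
  apply Subtype.ext
  ext x
  rw [key N, key M, h]

end Powers

end Pool.Agent.Work.MP_f6f6d4_al
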