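import Mathlib

set_option autoImplicit false

/-!
# The McLain group over `ℚ` and `ZMod 2`
-/

namespace Pool.Agent.Work.MP_f6f6d4_al

/-- the vector space with basis `(e_q)_{q ∈ ℚ}` -/
abbrev V : Type := ℚ →₀ ZMod 2

/-- basis vectors -/
noncomputable def e (i : ℚ) : V := Finsupp.single i 1

theorem e_apply (i b : ℚ) : e i b = if i = b then 1 else 0 := by
  simp [e, Finsupp.single_apply]

theorem e_same (i : ℚ) : e i i = 1 := by rw [e_apply, if_pos rfl]

theorem e_ne {i b : ℚ} (h : i ≠ b) : e i b = 0 := by rw [e_apply, if_neg h]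

/-- the map `v ↦ v + v_b u` with `u_b = 0` -/
noncomputable def tau (u : V) (b : ℚ) (h : u b = 0) : V ≃ₗ[ZMod 2] V where
  toFun v := v + v b • u
  map_add' v w := by
    rw [Finsupp.add_apply, add_smul]; abel
  map_smul' c v := by
    simp only [Finsupp.smul_apply, smul_eq_mul, RingHom.id_apply, smul_add, mul_smul]
  invFun v := v - v b • u
  left_inv v := by
    simp only [Finsupp.add_apply, Finsupp.smul_apply, h, smul_zero, add_zero, add_sub_cancel_right]
  right_inv v := by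
    simp only [Finsupp.sub_apply, Finsupp.smul_apply, h, smul_zero, sub_zero, sub_add_cancel]

theorem tau_apply (u : V) (b : ℚ) (h : u b = 0) (v : V) : tau u b h v = v + v b • u := rfl

theorem tau_inv_apply (u : V) (b : ℚ) (h : u b = 0) (v : V) : (tau u b h)⁻¹ v = v - v b • u := rfl

/-- the elementary transvection `1 + e_{ij}`, `i < j` -/
noncomputable def t (i j : ℚ) (h : i < j) : V ≃ₗ[ZMod 2] V := tau (e i) j (e_ne h.ne)

theorem t_apply (i j : ℚ) (h : i < j) (v : V) : t i j h v = v + v j • e i := rfl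

theorem t_inv_apply (i j : ℚ) (h : i < j) (v : V) : (t i j h)⁻¹ v = v - v j • e i := rfl

/-- The McLain group. -/
noncomputable def A : Subgroup (V ≃ₗ[ZMod 2] V) :=
  Subgroup.closure {g | ∃ i j, ∃ h : i < j, g = t i j h}

theorem t_mem (i j : ℚ) (h : i < j) : t i j h ∈ A := Subgroup.subset_closure ⟨i, j, h, rfl⟩

theorem mul_ap (g h : V ≃ₗ[ZMod 2] V) (v : V) : (g * h) v = g (h v) := rfl

theorem inv_ap (g : V ≃ₗ[ZMod 2] V) (v : V) : g (g⁻¹ v) = v := by
  rw [← mul_ap, mul_inv_cancel]; rfl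

theorem inv_ap' (g : V ≃ₗ[ZMod 2] V) (v : V) : g⁻¹ (g v) = v := by
  rw [← mul_ap, inv_mul_cancel]; rfl

/-- Elements of `A` do not change coordinates far to the right. -/
theorem exists_bound {g : V ≃ₗ[ZMod 2] V} (hg : g ∈ A) :
    ∃ B : ℚ, ∀ b, B < b → ∀ v, g v b = v b := by
  induction hg using Subgroup.closure_induction with
  | mem g hg =>
    obtain ⟨i, j, h, rfl⟩ := hg
    refine ⟨i, fun b hb v => ?_⟩
    rw [t_apply, Finsupp.add_apply, Finsupp.smul_apply, e_ne hb.ne, smul_zero, add_zero]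
  | one => exact ⟨0, fun b _ v => rfl⟩
  | mul g h _ _ hg hh =>
    obtain ⟨B, hB⟩ := hg
    obtain ⟨B', hB'⟩ := hh
    refine ⟨max B B', fun b hb v => ?_⟩
    rw [mul_ap, hB b (lt_of_le_of_lt (le_max_left _ _) hb),
      hB' b (lt_of_le_of_lt (le_max_right _ _) hb)]
  | inv g _ hg =>
    obtain ⟨B, hB⟩ := hg
    refine ⟨B, fun b hb v => ?_⟩
    have := hB b hb (g⁻¹ v)
    rw [inv_ap] at this
    exact this.symm

theorem exists_bound2 {g : V ≃ₗ[ZMod 2] V} (hg : g ∈ A) :
    ∃ B : ℚ, ∀ b, B < b → (∀ v, g v b = v b) ∧ ∀ v, g⁻¹ v b = v b := by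
  obtain ⟨B, hB⟩ := exists_bound hg
  refine ⟨B, fun b hb => ⟨hB b hb, fun v => ?_⟩⟩
  have := hB b hb (g⁻¹ v)
  rw [inv_ap] at this
  exact this.symm

/-- first commutator -/
theorem comm1 {g : V ≃ₗ[ZMod 2] V} {j b : ℚ} (hjb : j < b) (h1 : ∀ v, g v b = v b)
    (h2 : ∀ v, g⁻¹ v b = v b) (hu : (g (e j) - e j) b = 0) :
    g * t j b hjb * g⁻¹ * (t j b hjb)⁻¹ = tau (g (e j) - e j) b hu := by
  apply LinearEquiv.ext
  intro v
  rw [mul_ap, mul_ap, mul_ap, t_inv_apply, t_apply, h2, map_add, inv_ap, map_smul, tau_apply,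
    Finsupp.sub_apply, Finsupp.smul_apply, e_ne hjb.ne, smul_zero, sub_zero, smul_sub]
  abel

/-- second commutator -/
theorem comm2 {u : V} {a i b : ℚ} (hai : a < i) (hab : a < b) (hu : u b = 0) (hui : u i = 1) :
    t a i hai * tau u b hu * (t a i hai)⁻¹ * (tau u b hu)⁻¹ = t a b hab := by
  apply LinearEquiv.ext
  intro v
  rw [mul_ap, mul_ap, mul_ap, tau_inv_apply, t_inv_apply, tau_apply, t_apply, t_apply]
  have h1 : (v - v b • u - (v - v b • u) i • e a) b = v b := by
    simp [hu, e_ne hab.ne]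
  rw [h1]
  have h2 : (v - v b • u - (v - v b • u) i • e a + v b • u) i = v i := by
    simp [hui, e_ne hai.ne]
  rw [h2]
  simp only [Finsupp.sub_apply, Finsupp.smul_apply, hui, smul_eq_mul, mul_one, sub_smul]
  abel

/-- If all basis vectors are fixed, the map is the identity. -/
theorem eq_one_of_fix {g : V ≃ₗ[ZMod 2] V} (h : ∀ j, g (e j) = e j) : g = 1 := by
  apply LinearEquiv.toLinearMap_injective
  apply Finsupp.lhom_ext'
  intro j
  ext
  simpa [e] using DFunLike.congr_fun (h j) _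

theorem zmod2 (x : ZMod 2) (h : x ≠ 0) : x = 1 := by
  revert x; decide

theorem t_ne_one (a b : ℚ) (h : a < b) : t a b h ≠ 1 := by
  intro h1
  have h2 : t a b h (e b) a = e b a := by rw [h1]; rfl
  rw [t_apply, Finsupp.add_apply, Finsupp.smul_apply, e_same, e_ne h.ne', e_same] at h2
  simp at h2

/-- Every non-trivial normal subgroup of the McLain group contains all transvections `t_{ab}` with
`a` small and `b` large. -/
theorem exists_t_mem (N : Subgroup A) (hN : N.Normal) (hne : N ≠ ⊥) :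
    ∃ a₀ b₀ : ℚ, ∀ a b, a < a₀ → b₀ < b → ∃ hab : a < b, (⟨t a b hab, t_mem a b hab⟩ : A) ∈ N := by
  obtain ⟨⟨⟨g, hgA⟩, hgN⟩, hg1⟩ := Subgroup.ne_bot_iff_exists_ne_one.1 hne
  have hg1' : g ≠ 1 := fun h => hg1 (Subtype.ext (Subtype.ext h))
  obtain ⟨j, hj⟩ : ∃ j, g (e j) ≠ e j := by
    by_contra hcon
    push Not at hcon
    exact hg1' (eq_one_of_fix hcon)
  obtain ⟨B, hB⟩ := exists_bound2 hgA
  have hu0 : g (e j) - e j ≠ 0 := sub_ne_zero.2 hj
  obtain ⟨i, hi⟩ : ∃ i, (g (e j) - e j) i ≠ 0 := by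
    by_contra hcon
    push Not at hcon
    exact hu0 (Finsupp.ext hcon)
  have hib : i ≤ max B j := by
    by_contra hcon
    push Not at hcon
    apply hi
    rw [Finsupp.sub_apply, (hB i (lt_of_le_of_lt (le_max_left _ _) hcon)).1,
      sub_self]
  refine ⟨i, max B j, fun a b ha hb => ?_⟩
  have hab : a < b := ha.trans (lt_of_le_of_lt hib hb)
  have hjb : j < b := lt_of_le_of_lt (le_max_right _ _) hb
  have hBb := hB b (lt_of_le_of_lt (le_max_left _ _) hb)
  have hu : (g (e j) - e j) b = 0 := by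
    rw [Finsupp.sub_apply, hBb.1, sub_self]
  refine ⟨hab, ?_⟩
  -- first commutator
  have h1 : g * t j b hjb * g⁻¹ * (t j b hjb)⁻¹ ∈ A :=
    A.mul_mem (A.mul_mem (A.mul_mem hgA (t_mem j b hjb)) (A.inv_mem hgA)) (A.inv_mem (t_mem j b hjb))
  have h2 : (⟨_, h1⟩ : A) ∈ N := by
    have h3 : (⟨g, hgA⟩ : A) * ((⟨t j b hjb, t_mem j b hjb⟩ : A) * (⟨g, hgA⟩ : A)⁻¹ *
        (⟨t j b hjb, t_mem j b hjb⟩ : A)⁻¹) ∈ N :=
      N.mul_mem hgN (hN.conj_mem _ (N.inv_mem hgN) _)
    convert h3 using 1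
    apply Subtype.ext
    simp only [Subgroup.coe_mul, Subgroup.coe_inv, mul_assoc]
  have h4 : tau (g (e j) - e j) b hu ∈ A := by rw [← comm1 hjb hBb.1 hBb.2 hu]; exact h1
  have h5 : (⟨_, h4⟩ : A) ∈ N := by
    convert h2 using 1
    apply Subtype.ext
    exact (comm1 hjb hBb.1 hBb.2 hu).symm
  -- second commutator
  have h6 : (⟨t a i ha, t_mem a i ha⟩ : A) * (⟨_, h4⟩ : A) * (⟨t a i ha, t_mem a i ha⟩ : A)⁻¹ *
      (⟨_, h4⟩ : A)⁻¹ ∈ N :=
    N.mul_mem (hN.conj_mem _ h5 _) (N.inv_mem h5)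
  convert h6 using 1
  apply Subtype.ext
  exact (comm2 ha hab hu (zmod2 _ hi)).symm

/-- Any two non-trivial normal subgroups of the McLain group meet non-trivially. -/
theorem inf_ne_bot (M N : Subgroup A) (hM : M.Normal) (hN : N.Normal) (hM1 : M ≠ ⊥)
    (hN1 : N ≠ ⊥) : M ⊓ N ≠ ⊥ := by
  obtain ⟨a₀, b₀, h0⟩ := exists_t_mem M hM hM1
  obtain ⟨a₁, b₁, h1⟩ := exists_t_mem N hN hN1
  obtain ⟨hab, h2⟩ := h0 (min a₀ a₁ - 1) (max b₀ b₁ + 1)
    (by have := min_le_left a₀ a₁; linarith) (by have := le_max_left b₀ b₁; linarith)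
  obtain ⟨_, h3⟩ := h1 (min a₀ a₁ - 1) (max b₀ b₁ + 1)
    (by have := min_le_right a₀ a₁; linarith) (by have := le_max_right b₀ b₁; linarith)
  intro h
  have h4 : (⟨t _ _ hab, t_mem _ _ hab⟩ : A) ∈ M ⊓ N := ⟨h2, h3⟩
  rw [h, Subgroup.mem_bot] at h4
  exact t_ne_one _ _ hab (congrArg Subtype.val h4)

/-- The McLain group has trivial centre. -/
theorem center_eq_bot : Subgroup.center A = ⊥ := by
  by_contra hne
  obtain ⟨a₀, b₀, h0⟩ := exists_t_mem _ (inferInstance : (Subgroup.center A).Normal) hne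
  obtain ⟨hab, h2⟩ := h0 (a₀ - 1) (b₀ + 1) (by linarith) (by linarith)
  have hca : a₀ - 1 - 1 < a₀ - 1 := by linarith
  have h3 := (Subgroup.mem_center_iff.1 h2) ⟨t _ _ hca, t_mem _ _ hca⟩
  have h4 := congrArg Subtype.val h3
  have h5 := congrArg (fun f : V ≃ₗ[ZMod 2] V => f (e (b₀ + 1)) (a₀ - 1 - 1)) h4
  simp only [Subgroup.coe_mul, mul_ap, t_apply] at h5
  have e1 : e (b₀ + 1) (b₀ + 1) = 1 := e_same _
  have e2 : e (a₀ - 1) (a₀ - 1) = 1 := e_same _
  have e3 : e (a₀ - 1 - 1) (a₀ - 1 - 1) = 1 := e_same _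
  have e4 : e (b₀ + 1) (a₀ - 1) = 0 := e_ne hab.ne'
  have e5 : e (b₀ + 1) (a₀ - 1 - 1) = 0 := e_ne (by linarith)
  have e6 : e (a₀ - 1) (a₀ - 1 - 1) = 0 := e_ne (by linarith)
  simp [e1, e2, e3, e4, e5, e6] at h5

/-- permutation of the basis by an affine map -/
noncomputable def aff (c d : ℚ) (hc : 0 < c) : ℚ ≃ ℚ where
  toFun x := c * x + d
  invFun x := (x - d) / c
  left_inv x := by field_simp; ring
  right_inv x := by field_simp; ring

/-- linear map permuting the basis -/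
noncomputable def P (c d : ℚ) (hc : 0 < c) : V ≃ₗ[ZMod 2] V :=
  Finsupp.domLCongr (aff c d hc)

theorem P_e (c d : ℚ) (hc : 0 < c) (i : ℚ) : P c d hc (e i) = e (c * i + d) := by
  simp only [P, e, Finsupp.domLCongr_single]; rfl

theorem P_apply (c d : ℚ) (hc : 0 < c) (v : V) (j : ℚ) : P c d hc v (c * j + d) = v j := by
  have : (aff c d hc).symm (c * j + d) = j := (aff c d hc).symm_apply_apply j
  simp only [P, Finsupp.domLCongr_apply, Finsupp.domCongr_apply, Finsupp.equivMapDomain_apply]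
  rw [this]

theorem P_conj (c d : ℚ) (hc : 0 < c) (i j : ℚ) (h : i < j) (h' : c * i + d < c * j + d) :
    P c d hc * t i j h * (P c d hc)⁻¹ = t (c * i + d) (c * j + d) h' := by
  apply LinearEquiv.ext
  intro v
  rw [mul_ap, mul_ap, t_apply, map_add, map_smul, inv_ap, P_e, t_apply]
  have := P_apply c d hc ((P c d hc)⁻¹ v) j
  rw [inv_ap] at this
  rw [this]

theorem aff_inv_mem (c d : ℚ) (hc : 0 < c) {g : V ≃ₗ[ZMod 2] V} (hg : g ∈ A) :
    P c d hc * g * (P c d hc)⁻¹ ∈ A := by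
  induction hg using Subgroup.closure_induction with
  | mem g hg =>
    obtain ⟨i, j, h, rfl⟩ := hg
    have h' : c * i + d < c * j + d := by
      have := mul_lt_mul_of_pos_left h hc
      linarith
    rw [P_conj c d hc i j h h']
    exact t_mem _ _ _
  | one => simp [A.one_mem]
  | mul g h _ _ hg hh =>
    have : P c d hc * (g * h) * (P c d hc)⁻¹ =
        (P c d hc * g * (P c d hc)⁻¹) * (P c d hc * h * (P c d hc)⁻¹) := by group
    rw [this]
    exact A.mul_mem hg hh
  | inv g _ hg =>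
    have : P c d hc * g⁻¹ * (P c d hc)⁻¹ = (P c d hc * g * (P c d hc)⁻¹)⁻¹ := by group
    rw [this]
    exact A.inv_mem hg

theorem P_inv (c d : ℚ) (hc : 0 < c) : (P c d hc)⁻¹ = P c⁻¹ (-(d / c)) (inv_pos.2 hc) := by
  rw [inv_eq_iff_mul_eq_one]
  apply eq_one_of_fix
  intro j
  rw [mul_ap, P_e, P_e]
  congr 1
  field_simp
  ring

/-- automorphisms of the McLain group from affine maps -/
noncomputable def autA (c d : ℚ) (hc : 0 < c) : A ≃* A where
  toFun g := ⟨P c d hc * g.1 * (P c d hc)⁻¹, aff_inv_mem c d hc g.2⟩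
  invFun g := ⟨(P c d hc)⁻¹ * g.1 * P c d hc, by
    have := aff_inv_mem c⁻¹ (-(d / c)) (inv_pos.2 hc) g.2
    rw [← P_inv, inv_inv] at this
    exact this⟩
  left_inv g := by
    apply Subtype.ext
    simp only
    group
  right_inv g := by
    apply Subtype.ext
    simp only
    group
  map_mul' g h := by
    apply Subtype.ext
    simp only [Subgroup.coe_mul]
    group

/-- The McLain group is characteristically simple. -/
theorem charSimple (N : Subgroup A) (hN : N.Characteristic) : N = ⊥ ∨ N = ⊤ := by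
  by_cases hne : N = ⊥
  · exact Or.inl hne
  right
  obtain ⟨a₀, b₀, h0⟩ := exists_t_mem N inferInstance hne
  obtain ⟨hab, h2⟩ := h0 (a₀ - 1) (b₀ + 1) (by linarith) (by linarith)
  set a := a₀ - 1
  set b := b₀ + 1
  have h3 : ∀ i j, ∀ h : i < j, (⟨t i j h, t_mem i j h⟩ : A) ∈ N := by
    intro i j h
    have hba : 0 < b - a := by linarith
    have hc : 0 < (j - i) / (b - a) := div_pos (by linarith) hba
    have h4 := (Subgroup.characteristic_iff_le_comap.1 hN) (autA _ (i - (j - i) / (b - a) * a) hc) h2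
    rw [Subgroup.mem_comap] at h4
    convert h4 using 1
    apply Subtype.ext
    have ei : (j - i) / (b - a) * a + (i - (j - i) / (b - a) * a) = i := by ring
    have ej : (j - i) / (b - a) * b + (i - (j - i) / (b - a) * a) = j := by
      field_simp; ring
    have h5 : (j - i) / (b - a) * a + (i - (j - i) / (b - a) * a) <
        (j - i) / (b - a) * b + (i - (j - i) / (b - a) * a) := by rw [ei, ej]; exact h
    have h6 := P_conj _ (i - (j - i) / (b - a) * a) hc a b hab h5
    change t i j h = P _ _ hc * t a b hab * (P _ _ hc)⁻¹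
    rw [h6]
    congr 1
    · exact ei.symm
    · exact ej.symm
  rw [eq_top_iff]
  rintro ⟨g, hg⟩ -
  induction hg using Subgroup.closure_induction with
  | mem g hg =>
    obtain ⟨i, j, h, rfl⟩ := hg
    exact h3 i j h
  | one => exact N.one_mem
  | mul g h hg' hh' hg hh => exact N.mul_mem hg hh
  | inv g hg' hg => exact N.inv_mem hg

/-- vectors supported on `(-∞, q]` -/
def low (q : ℚ) (v : V) : Prop := ∀ b, q < b → v b = 0

theorem low_of_mem {q : ℚ} {g : V ≃ₗ[ZMod 2] V} (hg : g ∈ A) :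
    ∀ v, low q v → low q (g v) ∧ low q (g⁻¹ v) := by
  induction hg using Subgroup.closure_induction with
  | mem g hg =>
    obtain ⟨i, j, h, rfl⟩ := hg
    intro v hv
    have key : ∀ b, q < b → v j • (e i) b = 0 := by
      intro b hb
      by_cases hib : i = b
      · have : v j = 0 := hv j (hb.trans (hib ▸ h))
        rw [this, zero_smul]
      · rw [e_ne hib, smul_zero]
    refine ⟨fun b hb => ?_, fun b hb => ?_⟩
    · rw [t_apply, Finsupp.add_apply, Finsupp.smul_apply, hv b hb, key b hb, add_zero]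
    · rw [t_inv_apply, Finsupp.sub_apply, Finsupp.smul_apply, hv b hb, key b hb, sub_zero]
  | one => exact fun v hv => ⟨hv, hv⟩
  | mul g h _ _ hg hh =>
    intro v hv
    refine ⟨(hg _ (hh v hv).1).1, ?_⟩
    rw [mul_inv_rev]
    exact (hh _ (hg v hv).2).2
  | inv g _ hg =>
    intro v hv
    refine ⟨(hg v hv).2, ?_⟩
    rw [inv_inv]
    exact (hg v hv).1

/-- The normal subgroup of elements acting trivially on the vectors supported on `(-∞, q]`. -/
noncomputable def NN (q : ℚ) : Subgroup A where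
  carrier := {g | ∀ v, low q v → g.1 v = v}
  one_mem' := fun v _ => rfl
  mul_mem' := by
    intro g h hg hh v hv
    change g.1 (h.1 v) = v
    rw [hh v hv, hg v hv]
  inv_mem' := by
    intro g hg v hv
    change (g.1)⁻¹ v = v
    conv_lhs => rw [← hg v hv]
    exact inv_ap' _ _

instance (q : ℚ) : (NN q).Normal where
  conj_mem := by
    intro n hn g v hv
    change g.1 (n.1 ((g.1)⁻¹ v)) = v
    rw [hn _ (low_of_mem g.2 v hv).2, inv_ap]

theorem NN_injective : Function.Injective NN := by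
  have key : ∀ q q', q < q' → NN q ≠ NN q' := by
    intro q q' h heq
    have h1 : (⟨t (q' - 1) q' (by linarith), t_mem _ _ _⟩ : A) ∈ NN q := by
      intro v hv
      change t (q' - 1) q' (by linarith) v = v
      rw [t_apply, hv q' h, zero_smul, add_zero]
    rw [heq] at h1
    have h2 : t (q' - 1) q' (by linarith) (e q') = e q' := h1 (e q') (fun b hb => e_ne hb.ne)
    rw [t_apply, e_same, one_smul] at h2
    have h3 : e (q' - 1) = 0 := by simpa using h2
    have h4 := DFunLike.congr_fun h3 (q' - 1)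
    rw [e_same] at h4
    simp at h4
  intro q q' h
  rcases lt_trichotomy q q' with h1 | h1 | h1
  · exact absurd h (key _ _ h1)
  · exact h1
  · exact absurd h.symm (key _ _ h1)

end Pool.Agent.Work.MP_f6f6d4_al
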